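import Mathlib

set_option autoImplicit false

namespace Pool.Agent.Results.MP_ffa63f_al.Yes

open Pointwise Cardinal

universe u

/-- A is large: G = F A for a finite F. -/
def Large {G : Type u} [Group G] (A : Set G) : Prop :=
  ∃ F : Set G, F.Finite ∧ F * A = Set.univ

/-- A is small: removing it from a large set leaves a large set. -/
def SmallSet {G : Type u} [Group G] (A : Set G) : Prop :=
  ∀ L : Set G, Large L → Large (L \ A)

lemma rec_ex {Y X : Type u} [One X] (r : Y → Y → Prop) (wf : WellFounded r)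
    (P : Y → (Y → X) → X → Prop)
    (hloc : ∀ y f g x, (∀ z, r z y → f z = g z) → P y f x → P y g x)
    (hex : ∀ y f, ∃ x, P y f x) : ∃ f : Y → X, ∀ y, P y f (f y) := by
  classical
  choose c hc using hex
  let F : ∀ y, (∀ z, r z y → X) → X := fun y h =>
    c y (fun z => if hz : r z y then h z hz else 1)
  refine ⟨wf.fix F, fun y => ?_⟩
  rw [wf.fix_eq F y]
  refine hloc y _ _ _ ?_ (hc y _)
  intro z hz
  simp [hz]

section
variable {G : Type u} [Group G]

lemma card_closure (s : Set G) (hG : ℵ₀ < #G) (hs : #s < #G) : Subgroup.closure s ≠ ⊤ := by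
  intro h
  have h1 : Subgroup.closure (insert 1 s) = ⊤ :=
    eq_top_iff.2 (h ▸ Subgroup.closure_mono (Set.subset_insert _ _))
  rw [FreeGroup.closure_eq_range, MonoidHom.range_eq_top] at h1
  have h2 := mk_le_of_surjective h1
  have : Nonempty (insert (1 : G) s : Set G) := ⟨⟨1, Set.mem_insert _ _⟩⟩
  rw [mk_freeGroup] at h2
  have h3 : #(insert (1 : G) s : Set G) < #G :=
    (mk_insert_le).trans_lt (add_lt_of_lt hG.le hs (one_lt_aleph0.trans hG))
  exact absurd h2 (not_le.2 (max_lt h3 hG))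

lemma levels (hG : ℵ₀ < #G) : ∃ (A : Finset G → G → Prop) (x : Finset G → G),
    (∀ E g, ∀ e ∈ E, A E g ↔ A E (e * g)) ∧ (∀ E g, A E g ∨ A E (x E * g)) ∧
      ∀ g, {E | A E g}.Finite := by
  classical
  have : Infinite G := infinite_iff.2 hG.le
  let I := (#G).ord.ToType
  have hI : #I = #G := mk_ord_toType _
  obtain ⟨φ⟩ : Nonempty (I ≃ Finset G) := Cardinal.eq.1 (hI.trans (mk_finset_of_infinite G).symm)
  have hlt : ∀ i : I, #(Set.Iio i) < #G := fun i => by
    simpa [I] using mk_Iio_lt i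
  let gen : I → (I → G) → Set G := fun i f => (⋃ j ∈ Set.Iic i, (φ j : Set G)) ∪ f '' Set.Iio i
  obtain ⟨x, hx⟩ := rec_ex (X := G) (fun a b : I => a < b) wellFounded_lt
    (fun i f y => y ∉ Subgroup.closure (gen i f)) (by
      intro i f g y h hy
      have : gen i g = gen i f := by
        simp only [gen]
        congr 1
        exact Set.image_congr fun z hz => (h z hz).symm
      rwa [this]) (by
      intro i f
      have hic : #(Set.Iic i) < #G := by
        rw [← Set.Iio_insert]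
        exact (mk_insert_le).trans_lt (add_lt_of_lt hG.le (hlt i) (one_lt_aleph0.trans hG))
      have : #(gen i f) < #G := by
        refine (mk_union_le _ _).trans_lt (add_lt_of_lt hG.le ?_ (mk_image_le.trans_lt (hlt i)))
        refine (mk_biUnion_le _ _).trans_lt (mul_lt_of_lt hG.le hic ?_)
        refine lt_of_le_of_lt (ciSup_le' fun j => ?_) hG
        exact (finset_card_lt_aleph0 _).le
      by_contra hc
      push Not at hc
      exact card_closure _ hG this (eq_top_iff.2 fun y _ => hc y))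
  let H : I → Subgroup G := fun i => Subgroup.closure (gen i x)
  let K : I → Subgroup G := fun i => Subgroup.closure (insert (x i) (gen i x))
  have hHK : ∀ i, H i ≤ K i := fun i => Subgroup.closure_mono (Set.subset_insert _ _)
  have hxK : ∀ i, x i ∈ K i := fun i => Subgroup.subset_closure (Set.mem_insert _ _)
  have hKH : ∀ i j, i < j → K i ≤ H j := by
    intro i j hij
    apply Subgroup.closure_mono
    rintro y (rfl | hy | ⟨k, hk, rfl⟩)
    · exact Or.inr ⟨i, hij, rfl⟩
    · left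
      simp only [Set.mem_iUnion] at hy ⊢
      obtain ⟨k, hk, hy⟩ := hy
      exact ⟨k, le_trans hk hij.le, hy⟩
    · exact Or.inr ⟨k, lt_trans hk hij, rfl⟩
  have hEH : ∀ i, ∀ e ∈ φ i, e ∈ H i := fun i e he =>
    Subgroup.subset_closure (Or.inl (Set.mem_biUnion (Set.mem_Iic.2 le_rfl) he))
  obtain ⟨_, wf⟩ := exists_wellFoundedLT (α := G)
  have hne : ∀ i g, ({h | h * g⁻¹ ∈ K i} : Set G).Nonempty := fun i g => ⟨g, by simp⟩
  let m : I → G → G := fun i g => wf.wf.min {h | h * g⁻¹ ∈ K i} (hne i g)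
  have hm : ∀ i g, m i g * g⁻¹ ∈ K i := fun i g => wf.wf.min_mem _ (hne i g)
  have hmin : ∀ i g h, h * g⁻¹ ∈ K i → m i g ≤ h := fun i g h hh =>
    not_lt.1 (wf.wf.not_lt_min {h | h * g⁻¹ ∈ K i} hh)
  have hinv : ∀ i g e, e ∈ K i → m i (e * g) = m i g := by
    intro i g e he
    apply le_antisymm
    · apply hmin
      have := (K i).mul_mem (hm i g) ((K i).inv_mem he)
      simpa [mul_assoc] using this
    · apply hmin
      have := (K i).mul_mem (hm i (e * g)) he
      simpa [mul_assoc] using this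
  refine ⟨fun E g => m (φ.symm E) g * g⁻¹ ∉ H (φ.symm E), fun E => x (φ.symm E), ?_, ?_, ?_⟩
  · intro E g e he
    have he' := hEH (φ.symm E) e (by simpa using he)
    simp only [hinv _ g e (hHK _ he'), mul_inv_rev, ← mul_assoc]
    rw [Subgroup.mul_mem_cancel_right _ ((H _).inv_mem he')]
  · intro E g
    by_contra hc
    push Not at hc
    obtain ⟨h1, h2⟩ := hc
    rw [hinv _ g _ (hxK _), mul_inv_rev, ← mul_assoc, Subgroup.mul_mem_cancel_left _ h1] at h2
    exact hx _ (by simpa using (H _).inv_mem h2)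
  · intro g
    have : {i | m i g * g⁻¹ ∉ H i}.Finite := by
      let T := {i | m i g * g⁻¹ ∉ H i}
      have hT : StrictAnti fun i : T => m i g := by
        intro i j hij
        have h1 := hKH i j hij (hm i g)
        refine lt_of_le_of_ne (hmin _ _ _ (hHK _ h1)) fun h => j.2 ?_
        have h' : m j g = m i g := h
        rw [h']
        exact h1
      have : WellFoundedGT T := hT.wellFoundedGT
      exact Finite.of_wellFoundedLT_wellFoundedGT T
    exact this.preimage φ.symm.injective.injOn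

lemma classes {Y : Type u} (R : Y → Y → Prop) (hs : ∀ a b, R a b → R b a)
    (hc : ∀ a, {b | R a b}.Countable) :
    ∃ n : Y → ℕ, (∀ a b, R a b → n a = n b → a = b) ∧
      ∀ a k, {b | R a b ∧ n b ≤ k}.Finite := by
  classical
  have h1 : ∀ a, {b | Relation.ReflTransGen R a b}.Countable := by
    intro a
    let T : ℕ → Set Y := fun k => Nat.rec {a} (fun _ S => ⋃ b ∈ S, {c | R b c}) k
    have hT : ∀ k, (T k).Countable := by
      intro k
      induction k with
      | zero => exact Set.countable_singleton a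
      | succ k ih => exact ih.biUnion fun b _ => hc b
    refine (Set.countable_iUnion hT).mono fun b hb => ?_
    have hb' : Relation.ReflTransGen R a b := hb
    clear hb
    induction hb' with
    | refl => exact Set.mem_iUnion.2 ⟨0, rfl⟩
    | tail _ h ih =>
      obtain ⟨k, hk⟩ := Set.mem_iUnion.1 ih
      exact Set.mem_iUnion.2 ⟨k + 1, Set.mem_biUnion hk h⟩
  have hsy : ∀ a b, Relation.ReflTransGen R a b → Relation.ReflTransGen R b a := by
    intro a b h
    induction h with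
    | refl => exact .refl
    | tail _ h ih => exact .head (hs _ _ h) ih
  have h2 : ∀ S : Set Y, ∃ f : Y → ℕ, S.Countable → S.InjOn f := by
    intro S
    by_cases h : S.Countable
    · obtain ⟨f, hf⟩ := Set.countable_iff_exists_injOn.1 h
      exact ⟨f, fun _ => hf⟩
    · exact ⟨fun _ => 0, fun h' => absurd h' h⟩
  choose f hf using h2
  let cl : Y → Set Y := fun a => {b | Relation.ReflTransGen R a b}
  have hcl : ∀ a b, R a b → cl b = cl a := fun a b h =>
    Set.ext fun c => ⟨fun hc => .head h hc, fun hc => .head (hs _ _ h) hc⟩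
  refine ⟨fun a => f (cl a) a, ?_, ?_⟩
  · intro a b h e
    simp only [hcl a b h] at e
    exact hf _ (h1 a) .refl (.single h) e
  · intro a k
    refine Set.Finite.of_finite_image (f := f (cl a)) ((Set.finite_Iic k).subset ?_) ?_
    · rintro _ ⟨b, ⟨h, hb⟩, rfl⟩
      simpa only [hcl a b h, Set.mem_Iic] using hb
    · exact (hf _ (h1 a)).mono fun b hb => .single hb.1

lemma indep [Infinite G] (R : G → G → Prop) (hs : ∀ a b, R a b → R b a)
    (hf : ∀ a, {b | R a b}.Finite) :
    ∃ C S : Set G, C.Countable ∧ C * S = Set.univ ∧ ∀ a ∈ S, ∀ b ∈ S, R a b → a = b := by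
  classical
  let c : ℕ ↪ G := Infinite.natEmbedding G
  let Q : G → G → Prop := fun a b => ∃ i j, R (c i * a) (c j * b)
  obtain ⟨n, hn1, hn2⟩ := classes Q (fun a b ⟨i, j, h⟩ => ⟨j, i, hs _ _ h⟩) (by
    intro a
    have : {b | Q a b} ⊆ ⋃ i, ⋃ j, (fun z => (c j)⁻¹ * z) '' {b | R (c i * a) b} := by
      rintro b ⟨i, j, h⟩
      simp only [Set.mem_iUnion]
      exact ⟨i, j, _, h, by simp⟩
    exact (Set.countable_iUnion fun i => Set.countable_iUnion fun j =>
      ((hf _).image _).countable).mono this)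
  obtain ⟨s, hs'⟩ := rec_ex (X := G) (fun a b : G => n a < n b) (measure n).wf
    (fun a f y => (∃ i, y = c i * a) ∧ ∀ b, Q a b → n b < n a → ¬ R (f b) y) (by
      intro a f g y h hy
      exact ⟨hy.1, fun b hb hn => h b hn ▸ hy.2 b hb hn⟩) (by
      intro a f
      have h1 : (⋃ b ∈ {b | Q a b ∧ n b ≤ n a}, {y | R (f b) y}).Finite :=
        (hn2 a (n a)).biUnion fun b _ => hf _
      have h2 : (Set.range fun i => c i * a).Infinite :=
        Set.infinite_range_of_injective fun i j h => c.injective (mul_right_cancel h)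
      obtain ⟨y, ⟨i, hi⟩, hy⟩ := h2.exists_notMem_finite h1
      refine ⟨y, ⟨i, hi.symm⟩, fun b hb hn h => hy ?_⟩
      exact Set.mem_biUnion (show b ∈ {b | Q a b ∧ n b ≤ n a} from ⟨hb, hn.le⟩) h)
  refine ⟨Set.range fun i => (c i)⁻¹, Set.range s, Set.countable_range _, ?_, ?_⟩
  · refine Set.eq_univ_of_forall fun g => ?_
    obtain ⟨i, hi⟩ := (hs' g).1
    exact ⟨_, ⟨i, rfl⟩, _, ⟨g, rfl⟩, by simp [hi]⟩
  · rintro _ ⟨a, rfl⟩ _ ⟨b, rfl⟩ h
    obtain ⟨i, hi⟩ := (hs' a).1
    obtain ⟨j, hj⟩ := (hs' b).1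
    have hq : Q a b := ⟨i, j, hi ▸ hj ▸ h⟩
    have hq' : Q b a := ⟨j, i, hi ▸ hj ▸ hs _ _ h⟩
    rcases lt_trichotomy (n a) (n b) with h' | h' | h'
    · exact absurd h ((hs' b).2 a hq' h')
    · rw [hn1 a b hq h']
    · exact absurd (hs _ _ h) ((hs' a).2 b hq h')

lemma small_of (S : Set G) (h : ∀ F : Set G, F.Finite → ∃ K : Set G, K.Finite ∧
    ∀ g, ∃ k ∈ K, ∀ f ∈ F, f * (k * g) ∉ S) : SmallSet S := by
  rintro L ⟨F, hF, hL⟩
  obtain ⟨K, hK, h⟩ := h F⁻¹ hF.inv
  refine ⟨K⁻¹ * F, hK.inv.mul hF, Set.eq_univ_of_forall fun g => ?_⟩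
  obtain ⟨k, hk, h⟩ := h g
  obtain ⟨f, hf, l, hl, e⟩ : k * g ∈ F * L := hL ▸ Set.mem_univ _
  have e' : f * l = k * g := e
  refine ⟨k⁻¹ * f, ⟨k⁻¹, by simpa using hk, f, hf, rfl⟩, l, ⟨hl, ?_⟩, ?_⟩
  · have := h f⁻¹ (by simpa using hf)
    rwa [← e', inv_mul_cancel_left] at this
  · show k⁻¹ * f * l = g
    rw [mul_assoc, e', inv_mul_cancel_left]

end

theorem result (G : Type u) [Group G] [Infinite G] :
    ∃ C S : Set G, C.Countable ∧ SmallSet S ∧ C * S = Set.univ := by
  classical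
  have hk : ∀ F : Set G, F.Finite → ∃ k : G, ∀ a ∈ F, ∀ b ∈ F, b * k ≠ a := by
    intro F hF
    obtain ⟨k, -, hk⟩ := Set.infinite_univ.exists_notMem_finite (hF.inv.mul hF)
    exact ⟨k, fun a ha b hb e => hk ⟨b⁻¹, by simpa using hb, a, ha, by simp [← e]⟩⟩
  rcases (infinite_iff.1 (inferInstance : Infinite G)).eq_or_lt with hG | hG
  · have : Countable G := mk_le_aleph0_iff.1 hG.ge
    refine ⟨Set.univ, {1}, Set.countable_univ, small_of _ fun F hF => ?_, by simp⟩
    obtain ⟨k, hk⟩ := hk F hF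
    refine ⟨{1, k}, Set.toFinite _, fun g => ?_⟩
    by_contra hc
    push Not at hc
    obtain ⟨a, ha, h1⟩ := hc 1 (by simp)
    obtain ⟨b, hb, h2⟩ := hc k (by simp)
    refine hk a ha b hb (mul_right_cancel (b := g) ?_)
    rw [Set.mem_singleton_iff] at h1 h2
    rw [mul_assoc, h2, ← h1, one_mul]
  obtain ⟨A, x, hA1, hA2, hA3⟩ := levels hG
  obtain ⟨C, S, hC, hCS, hS⟩ := indep
    (fun a b : G => ∃ E, A E a ∧ (b * a⁻¹ ∈ E ∨ a * b⁻¹ ∈ E)) (by
      rintro a b ⟨E, h, h' | h'⟩
      · exact ⟨E, by simpa using (hA1 E a _ h').1 h, Or.inr h'⟩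
      · exact ⟨E, (hA1 E b _ h').2 (by simpa using h), Or.inl h'⟩) (by
      intro a
      refine ((hA3 a).biUnion (t := fun E => ((fun z => z * a) '' (E : Set G)) ∪
        ((fun z => z⁻¹ * a) '' (E : Set G))) fun E _ => Set.toFinite _).subset ?_
      rintro b ⟨E, h, h' | h'⟩
      · exact Set.mem_biUnion h (Or.inl ⟨_, h', by simp⟩)
      · exact Set.mem_biUnion h (Or.inr ⟨_, h', by simp⟩))
  refine ⟨C, S, hC, small_of _ fun F hF => ?_, hCS⟩
  obtain ⟨k, hk⟩ := hk F hF
  have hE : (F ∪ F * {k} * F⁻¹).Finite := hF.union ((hF.mul (Set.toFinite _)).mul hF.inv)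
  let E := hE.toFinset
  refine ⟨{1, k} * {1, x E}, Set.toFinite _, fun g => ?_⟩
  obtain ⟨y, hy, hAy⟩ : ∃ y ∈ ({1, x E} : Set G), A E (y * g) := by
    rcases hA2 E g with h | h
    · exact ⟨1, by simp, by simpa using h⟩
    · exact ⟨x E, by simp, h⟩
  by_contra hc
  push Not at hc
  obtain ⟨a, ha, h1⟩ := hc (1 * y) ⟨1, by simp, y, hy, rfl⟩
  obtain ⟨b, hb, h2⟩ := hc (k * y) ⟨k, by simp, y, hy, rfl⟩
  rw [one_mul] at h1
  have := hS _ h1 _ h2 ⟨E, (hA1 E _ a (by simp [E, ha])).1 hAy, Or.inl (by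
    simp only [E, Set.Finite.mem_toFinset]
    exact Or.inr ⟨b * k, ⟨b, hb, k, rfl, rfl⟩, a⁻¹, by simpa using ha, by group⟩)⟩
  refine hk a ha b hb (mul_right_cancel (b := y * g) ?_)
  rw [this]
  group

end Pool.Agent.Results.MP_ffa63f_al.Yes
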